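import Pool.Agent.Results.MP_0cd67c_ag.ZeroSumPreservers
import Pool.Agent.V11304.Diag.A

set_option autoImplicit false

open Polynomial Finset Pool.Agent.H635Z Pool.Agent.V11304.Diag
open Pool.Agent.Results.MP_0cd67c_ag.ZeroSumPreservers

namespace Pool.Agent.Results.MP_31565c_an.Full

/-- `T` is diagonal with multipliers `lam k`: `T (t ^ k) = lam k * t ^ k` for all `k ≤ d` with
`k ≠ d - 1`. -/
def DiagonalWith {d : ℕ} (T : ZeroSum d →ₗ[ℝ] ZeroSum d) (lam : ℕ → ℝ) : Prop :=
  ∀ k : ℕ, k ≤ d → k ≠ d - 1 → ∀ m : ZeroSum d, (m : ℝ[X]) = X ^ k →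
    (T m : ℝ[X]) = C (lam k) * X ^ k

/-- The polynomial `q_d = (t - 1) ^ (d - 1) * (t + d - 1)` as an element of `V_d`. -/
noncomputable def qd (d : ℕ) (hd : 2 ≤ d) : ZeroSum d := ⟨g0 d, g0_mem d (by omega)⟩

/-- All real roots of `p` are `≥ 0`, or all are `≤ 0`. -/
def AllSameSign (p : ℝ[X]) : Prop := (∀ x ∈ p.roots, 0 ≤ x) ∨ (∀ x ∈ p.roots, x ≤ 0)

lemma T_coeffs {d : ℕ} (hd : 2 ≤ d) (T : ZeroSum d →ₗ[ℝ] ZeroSum d) (lam : ℕ → ℝ)
    (h : DiagonalWith T lam) (g : ZeroSum d) (k : ℕ) :
    (T g : ℝ[X]).coeff k = lam k * (g : ℝ[X]).coeff k := by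
  have h1 := T_coeff (n := d) (d := d) (by omega) T (fun i => lam (d - i)) (by
    intro i hi hi1 m hm
    rw [if_pos hi]
    exact h (d - i) (by omega) (by omega) m hm) g
  by_cases hk : k ≤ d
  · by_cases hk1 : k = d - 1
    · rw [hk1, (T g).2.2, g.2.2, mul_zero]
    · have h2 := h1 (d - k)
      rw [coeff_reflect, revAt_le (by omega), if_pos (by omega), coeff_reflect,
        revAt_le (by omega), show d - (d - k) = k by omega] at h2
      exact h2
  · rw [coeff_eq_zero_of_natDegree_lt (lt_of_le_of_lt (T g).2.1 (by omega)),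
      coeff_eq_zero_of_natDegree_lt (lt_of_le_of_lt g.2.1 (by omega)), mul_zero]

lemma qd_coeff (d : ℕ) (hd : 2 ≤ d) (i : ℕ) (hi : i ≤ d) :
    (qd d hd : ℝ[X]).coeff (d - i) = (1 - (i : ℝ)) * ((-1) ^ i * (d.choose i : ℝ)) := by
  have h1 := reflect_g0_coeff d (by omega) i
  rw [coeff_reflect, revAt_le hi] at h1
  exact h1

lemma qd_coeff_ne (d : ℕ) (hd : 2 ≤ d) (k : ℕ) (hk : k ≤ d) (hk1 : k ≠ d - 1) :
    (qd d hd : ℝ[X]).coeff k ≠ 0 := by
  have h1 := qd_coeff d hd (d - k) (by omega)
  rw [show d - (d - k) = k by omega] at h1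
  rw [h1]
  apply mul_ne_zero
  · intro h
    have : ((d - k : ℕ) : ℝ) = 1 := by linarith
    have : d - k = 1 := by exact_mod_cast this
    omega
  · apply mul_ne_zero (pow_ne_zero _ (by norm_num))
    exact_mod_cast (Nat.choose_pos (by omega)).ne'

lemma qd_splits (d : ℕ) (hd : 2 ≤ d) : (qd d hd : ℝ[X]).Splits := by
  show (g0 d).Splits
  unfold g0
  apply Splits.mul
  · apply Splits.pow
    exact Splits.of_natDegree_le_one (by
      rw [show (X - 1 : ℝ[X]) = X - C 1 by simp, natDegree_X_sub_C])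
  · exact Splits.of_natDegree_le_one (by rw [natDegree_X_add_C])

section only_if

variable {d : ℕ} (hd : 2 ≤ d) (T : ZeroSum d →ₗ[ℝ] ZeroSum d) (lam : ℕ → ℝ)
  (hc : ∀ (g : ZeroSum d) (k : ℕ), (T g : ℝ[X]).coeff k = lam k * (g : ℝ[X]).coeff k)
  (hpres : ∀ g : ZeroSum d, (g : ℝ[X]).Splits → (T g : ℝ[X]).Splits)

include hc hpres in
lemma two_step (k : ℕ) (h1 : k + 2 ≤ d) (h2 : k + 2 ≠ d - 1) : 0 ≤ lam k * lam (k + 2) := by
  have hmem : (X ^ (k + 2) - X ^ k : ℝ[X]) ∈ ZeroSum d := by
    constructor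
    · show (X ^ (k + 2) - X ^ k : ℝ[X]).natDegree ≤ d
      refine (natDegree_sub_le _ _).trans ?_
      rw [natDegree_X_pow, natDegree_X_pow]; omega
    · show (X ^ (k + 2) - X ^ k : ℝ[X]).coeff (d - 1) = 0
      rw [coeff_sub, coeff_X_pow, coeff_X_pow, if_neg (by omega), if_neg (by omega), sub_zero]
  have hs : (X ^ (k + 2) - X ^ k : ℝ[X]).Splits := by
    have : (X ^ (k + 2) - X ^ k : ℝ[X]) = X ^ k * ((X - C 1) * (X + C 1)) := by
      simp only [C_1]; ring
    rw [this]
    exact (Splits.X_pow k).mul ((Splits.X_sub_C 1).mul (Splits.X_add_C 1))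
  have h3 := hpres ⟨_, hmem⟩ hs
  have h4 := binom_sign (-lam k) (lam (k + 2)) k _ h3 (by
    ext j
    rw [hc]
    simp only [coeff_add, coeff_C_mul, coeff_sub, coeff_X_pow]
    by_cases ha : j = k + 2
    · subst ha; simp
    · by_cases hb : j = k
      · subst hb; simp
      · simp [ha, hb])
  linarith

include hc hpres in
lemma drop (m : ℕ) (h1 : 1 ≤ m) (hm : m + 2 ≤ d) (hlm : lam m ≠ 0) (hlm1 : lam (m - 1) = 0) :
    ∀ k < m, lam k = 0 := by
  rcases Nat.lt_or_ge m 2 with hm2 | hm2
  · intro k hk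
    obtain rfl : m = 1 := by omega
    obtain rfl : k = 0 := by omega
    exact hlm1
  by_cases h0 : lam (m - 2) = 0
  · have hmem : ((1 + X) ^ m : ℝ[X]) ∈ ZeroSum d := by
      constructor
      · show ((1 + X) ^ m : ℝ[X]).natDegree ≤ d
        refine natDegree_pow_le.trans ?_
        have : (1 + X : ℝ[X]).natDegree ≤ 1 := by
          rw [add_comm, show (X + 1 : ℝ[X]) = X + C 1 by simp, natDegree_X_add_C]
        nlinarith
      · show ((1 + X) ^ m : ℝ[X]).coeff (d - 1) = 0
        rw [coeff_one_add_X_pow, Nat.choose_eq_zero_of_lt (by omega), Nat.cast_zero]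
    have hs : ((1 + X) ^ m : ℝ[X]).Splits := by
      apply Splits.pow
      exact Splits.of_natDegree_le_one (by
        rw [add_comm, show (X + 1 : ℝ[X]) = X + C 1 by simp, natDegree_X_add_C])
    have h3 := hpres ⟨_, hmem⟩ hs
    have hcc : ∀ k, (T ⟨_, hmem⟩ : ℝ[X]).coeff k = lam k * (m.choose k : ℝ) := by
      intro k
      rw [hc]
      show lam k * ((1 + X) ^ m : ℝ[X]).coeff k = _
      rw [coeff_one_add_X_pow]
    have hdeg : (T ⟨_, hmem⟩ : ℝ[X]).natDegree = m := by
      apply natDegree_eq_of_le_of_coeff_ne_zero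
      · rw [natDegree_le_iff_coeff_eq_zero]
        intro k hk
        rw [hcc, Nat.choose_eq_zero_of_lt hk, Nat.cast_zero, mul_zero]
      · rw [hcc, Nat.choose_self, Nat.cast_one, mul_one]; exact hlm
    have h4 := rigid _ h3 m hdeg hm2 (by rw [hcc, hlm1, zero_mul]) (by rw [hcc, h0, zero_mul])
    intro k hk
    have h5 := h4 k hk
    rw [hcc] at h5
    refine (mul_eq_zero.mp h5).resolve_right ?_
    exact_mod_cast (Nat.choose_pos hk.le).ne'
  · exfalso
    obtain ⟨k, rfl⟩ : ∃ k, m = k + 2 := ⟨m - 2, by omega⟩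
    rw [Nat.add_sub_cancel] at h0
    have hmem : (X ^ k * (1 + X) ^ 2 : ℝ[X]) ∈ ZeroSum d := by
      have hdg : (X ^ k * (1 + X) ^ 2 : ℝ[X]).natDegree ≤ k + 2 := by
        refine natDegree_mul_le.trans ?_
        have h5 : ((1 + X) ^ 2 : ℝ[X]).natDegree ≤ 2 := by
          refine natDegree_pow_le.trans ?_
          have : (1 + X : ℝ[X]).natDegree ≤ 1 := by
            rw [add_comm, show (X + 1 : ℝ[X]) = X + C 1 by simp, natDegree_X_add_C]
          omega
        rw [natDegree_X_pow]; omega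
      constructor
      · show (X ^ k * (1 + X) ^ 2 : ℝ[X]).natDegree ≤ d
        omega
      · show (X ^ k * (1 + X) ^ 2 : ℝ[X]).coeff (d - 1) = 0
        exact coeff_eq_zero_of_natDegree_lt (by omega)
    have hs : (X ^ k * (1 + X) ^ 2 : ℝ[X]).Splits := by
      apply (Splits.X_pow k).mul
      apply Splits.pow
      exact Splits.of_natDegree_le_one (by
        rw [add_comm, show (X + 1 : ℝ[X]) = X + C 1 by simp, natDegree_X_add_C])
    have h3 := hpres ⟨_, hmem⟩ hs
    have hexp : (X ^ k * (1 + X) ^ 2 : ℝ[X]) = X ^ (k + 2) + C 2 * X ^ (k + 1) + X ^ k := by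
      have : (C (2 : ℝ) : ℝ[X]) = 2 := map_ofNat C 2
      rw [this]; ring
    have h4 := binom_sign (lam k) (lam (k + 2)) k _ h3 (by
      ext j
      rw [hc]
      show lam j * (X ^ k * (1 + X) ^ 2 : ℝ[X]).coeff j = _
      rw [hexp]
      simp only [coeff_add, coeff_C_mul, coeff_X_pow]
      by_cases ha : j = k + 2
      · subst ha; simp
      · by_cases hb : j = k
        · subst hb; simp
        · by_cases hc' : j = k + 1
          · subst hc'
            have : lam (k + 1) = 0 := by rwa [show k + 2 - 1 = k + 1 by omega] at hlm1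
            rw [this]; simp
          · simp [ha, hb, hc'])
    have h5 := two_step T lam hc hpres k (by omega) (by omega)
    have h6 : lam k * lam (k + 2) = 0 := le_antisymm h4 h5
    rcases mul_eq_zero.mp h6 with h | h
    · exact h0 h
    · exact hlm h

include hd hc hpres in
lemma top_drop (h0 : lam d ≠ 0) (h1 : lam (d - 2) = 0) : ∀ k, k + 2 ≤ d → lam k = 0 := by
  have h3 := hpres (qd d hd) (qd_splits d hd)
  have hdeg : (T (qd d hd) : ℝ[X]).natDegree = d := by
    apply natDegree_eq_of_le_of_coeff_ne_zero (T (qd d hd)).2.1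
    rw [hc]
    exact mul_ne_zero h0 (qd_coeff_ne d hd d le_rfl (by omega))
  have h4 := rigid _ h3 d hdeg hd (T (qd d hd)).2.2 (by rw [hc, h1, zero_mul])
  intro k hk
  have h5 := h4 k (by omega)
  rw [hc] at h5
  exact (mul_eq_zero.mp h5).resolve_right (qd_coeff_ne d hd k (by omega) (by omega))

include hc hpres in
lemma pattern (M : ℕ) (hM : M + 2 ≤ d) (h0 : lam M ≠ 0) :
    ∃ ε : ℝ, (ε = 1 ∨ ε = -1) ∧ ∀ j ≤ M, 0 ≤ ε ^ j * (lam (M - j) * lam M) := by
  apply sign_pattern lam M h0
  · intro k hk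
    exact two_step T lam hc hpres k (by omega) (by omega)
  · intro m h1 h2 h3 h4
    exact drop T lam hc hpres m h1 (by omega) h3 h4

include hd hc hpres in
lemma pattern_top (h0 : lam d ≠ 0) :
    ∃ ε : ℝ, (ε = 1 ∨ ε = -1) ∧ ∀ i, 2 ≤ i → i ≤ d → 0 ≤ ε ^ i * (lam (d - i) * lam d) := by
  by_cases h1 : lam (d - 2) = 0
  · refine ⟨1, Or.inl rfl, ?_⟩
    intro i hi hid
    rw [top_drop hd T lam hc hpres h0 h1 (d - i) (by omega)]
    simp
  · obtain ⟨ε, hε, h2⟩ := pattern T lam hc hpres (d - 2) (by omega) h1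
    refine ⟨ε, hε, ?_⟩
    intro i hi hid
    have hε2 : ε ^ 2 = 1 := by rcases hε with h | h <;> rw [h] <;> norm_num
    have h3 := h2 (i - 2) (by omega)
    rw [show d - 2 - (i - 2) = d - i by omega] at h3
    have h4 := two_step T lam hc hpres (d - 2) (by omega) (by omega)
    rw [show d - 2 + 2 = d by omega] at h4
    have h5 : ε ^ i = ε ^ (i - 2) := by
      conv_lhs => rw [show i = (i - 2) + 2 by omega, pow_add, hε2, mul_one]
    rw [h5]
    have h6 : 0 ≤ (ε ^ (i - 2) * (lam (d - i) * lam d)) * (lam (d - 2)) ^ 2 := by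
      have := mul_nonneg h3 h4
      nlinarith [this]
    exact nonneg_of_mul_nonneg_left h6 (by positivity)

include hd hc hpres in
lemma sameSign_top (h0 : lam d ≠ 0) : SameSign d (T (qd d hd) : ℝ[X]) := by
  obtain ⟨ε, hε, h2⟩ := pattern_top hd T lam hc hpres h0
  have h3 := hpres (qd d hd) (qd_splits d hd)
  have hdeg : (T (qd d hd) : ℝ[X]).natDegree = d := by
    apply natDegree_eq_of_le_of_coeff_ne_zero (T (qd d hd)).2.1
    rw [hc]
    exact mul_ne_zero h0 (qd_coeff_ne d hd d le_rfl (by omega))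
  have hcard : Multiset.card (T (qd d hd) : ℝ[X]).roots = d := by
    rw [← h3.natDegree_eq_card_roots, hdeg]
  have hco : ∀ k < d, ∃ i, k = d - i ∧ 1 ≤ i ∧ i ≤ d := fun k hk => ⟨d - k, by omega⟩
  rcases hε with rfl | rfl
  · -- at most one negative root
    left
    have h4 := one_pos_root (C (lam d * (-1) ^ d) * (T (qd d hd) : ℝ[X]).comp (-X)) d (by
      refine (natDegree_C_mul_le _ _).trans ?_
      rw [natDegree_comp]
      simp
      exact hdeg.le) (by
      intro k hk
      obtain ⟨i, rfl, hi1, hid⟩ := hco k hk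
      rw [coeff_C_mul, comp_neg_coeff]
      rcases Nat.lt_or_ge i 2 with hi2 | hi2
      · obtain rfl : i = 1 := by omega
        rw [(T (qd d hd)).2.2]; simp
      · rw [hc, qd_coeff d hd i hid]
        have h5 := h2 i hi2 hid
        rw [one_pow, one_mul] at h5
        have e1 : ((-1 : ℝ) ^ d) * (-1) ^ (d - i) * (-1) ^ i = 1 := by
          rw [mul_assoc, ← pow_add, show d - i + i = d by omega, ← mul_pow]; simp
        have e2 : lam d * (-1) ^ d * (lam (d - i) * ((1 - (i : ℝ)) * ((-1) ^ i *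
            (d.choose i : ℝ))) * (-1) ^ (d - i)) =
            -((lam (d - i) * lam d) * (((i : ℝ) - 1) * (d.choose i : ℝ))) *
              (((-1 : ℝ) ^ d) * (-1) ^ (d - i) * (-1) ^ i) := by ring
        rw [e2, e1, mul_one]
        have h6 : (0 : ℝ) ≤ (i : ℝ) - 1 := by
          have : (2 : ℝ) ≤ i := by exact_mod_cast hi2
          linarith
        have h7 := mul_nonneg h5 (mul_nonneg h6 (Nat.cast_nonneg (α := ℝ) (d.choose i)))
        linarith)
    rw [roots_C_mul _ (mul_ne_zero h0 (pow_ne_zero _ (by norm_num))), roots_comp_neg_X,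
      Multiset.filter_map, Multiset.card_map] at h4
    have h5 := Multiset.filter_add_not (fun x : ℝ => 0 ≤ x) (T (qd d hd) : ℝ[X]).roots
    have h6 := congrArg Multiset.card h5
    rw [Multiset.card_add, hcard] at h6
    have h7 : Multiset.card (Multiset.filter (fun x : ℝ => ¬ 0 ≤ x) (T (qd d hd) : ℝ[X]).roots) ≤
        1 := by
      refine le_trans (le_of_eq ?_) h4
      congr 1
      apply Multiset.filter_congr
      intro x _
      simp
    omega
  · right
    have h4 := one_pos_root (C (lam d) * (T (qd d hd) : ℝ[X])) d (by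
      refine (natDegree_C_mul_le _ _).trans ?_
      exact hdeg.le) (by
      intro k hk
      obtain ⟨i, rfl, hi1, hid⟩ := hco k hk
      rw [coeff_C_mul]
      rcases Nat.lt_or_ge i 2 with hi2 | hi2
      · obtain rfl : i = 1 := by omega
        rw [(T (qd d hd)).2.2]; simp
      · rw [hc, qd_coeff d hd i hid]
        have h5 := h2 i hi2 hid
        have e2 : lam d * (lam (d - i) * ((1 - (i : ℝ)) * ((-1) ^ i * (d.choose i : ℝ)))) =
            -(((-1) ^ i * (lam (d - i) * lam d)) * (((i : ℝ) - 1) * (d.choose i : ℝ))) := by ring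
        rw [e2]
        have h6 : (0 : ℝ) ≤ (i : ℝ) - 1 := by
          have : (2 : ℝ) ≤ i := by exact_mod_cast hi2
          linarith
        have h7 := mul_nonneg h5 (mul_nonneg h6 (Nat.cast_nonneg (α := ℝ) (d.choose i)))
        linarith)
    rw [roots_C_mul _ h0] at h4
    have h5 := Multiset.filter_add_not (fun x : ℝ => x ≤ 0) (T (qd d hd) : ℝ[X]).roots
    have h6 := congrArg Multiset.card h5
    rw [Multiset.card_add, hcard] at h6
    have h7 : Multiset.card (Multiset.filter (fun x : ℝ => ¬ x ≤ 0) (T (qd d hd) : ℝ[X]).roots) ≤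
        1 := by
      refine le_trans (le_of_eq ?_) h4
      congr 1
      apply Multiset.filter_congr
      intro x _
      simp
    omega

include hd hc hpres in
lemma allSameSign_low (h0 : lam d = 0) : AllSameSign (T (qd d hd) : ℝ[X]) := by
  classical
  by_cases hall : ∀ k, k + 2 ≤ d → lam k = 0
  · left
    have : (T (qd d hd) : ℝ[X]) = 0 := by
      ext k
      rw [hc, coeff_zero]
      by_cases h1 : k + 2 ≤ d
      · rw [hall k h1, zero_mul]
      · by_cases h2 : k = d
        · rw [h2, h0, zero_mul]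
        · by_cases h3 : k = d - 1
          · rw [h3, (qd d hd).2.2, mul_zero]
          · rw [coeff_eq_zero_of_natDegree_lt (lt_of_le_of_lt (qd d hd).2.1 (by omega)), mul_zero]
    rw [this]; simp
  · push Not at hall
    obtain ⟨k0, hk0, hk0'⟩ := hall
    obtain ⟨M, hM, hM0, hMmax⟩ : ∃ M, M + 2 ≤ d ∧ lam M ≠ 0 ∧ ∀ k, M < k → k + 2 ≤ d → lam k = 0 := by
      let P : ℕ → Prop := fun k => k + 2 ≤ d ∧ lam k ≠ 0
      have hP : P k0 := ⟨hk0, hk0'⟩
      refine ⟨Nat.findGreatest P d, (Nat.findGreatest_spec (P := P) (by omega) hP).1,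
        (Nat.findGreatest_spec (P := P) (by omega) hP).2, ?_⟩
      intro k h1 h2
      by_contra h3
      exact Nat.findGreatest_is_greatest h1 (by omega) ⟨h2, h3⟩
    obtain ⟨ε, hε, h2⟩ := pattern T lam hc hpres M hM hM0
    have hcoef : ∀ k, k ≤ M → lam M * (T (qd d hd) : ℝ[X]).coeff k * (-1) ^ (d - M) =
        -((lam (M - (M - k)) * lam M) * (((d - k : ℕ) : ℝ) - 1) * (d.choose (d - k) : ℝ)) *
          (-1) ^ (M - k) := by
      intro k hk
      have h3 := qd_coeff d hd (d - k) (by omega)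
      rw [show d - (d - k) = k by omega] at h3
      rw [hc, h3, show M - (M - k) = k by omega]
      have e1 : ((-1 : ℝ) ^ (d - k)) * (-1) ^ (d - M) = (-1) ^ (M - k) := by
        rw [← pow_add, show d - k + (d - M) = 2 * (d - M) + (M - k) by omega, pow_add, pow_mul]
        simp
      have e2 : lam M * (lam k * ((1 - ((d - k : ℕ) : ℝ)) * ((-1) ^ (d - k) *
          (d.choose (d - k) : ℝ)))) * (-1) ^ (d - M) =
          -((lam k * lam M) * (((d - k : ℕ) : ℝ) - 1) * (d.choose (d - k) : ℝ)) *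
            (((-1 : ℝ) ^ (d - k)) * (-1) ^ (d - M)) := by ring
      rw [e2, e1]
    have hcoef0 : ∀ k, M < k → (T (qd d hd) : ℝ[X]).coeff k = 0 := by
      intro k hk
      by_cases h1 : k + 2 ≤ d
      · rw [hc, hMmax k hk h1, zero_mul]
      · by_cases h2 : k = d
        · rw [hc, h2, h0, zero_mul]
        · by_cases h3 : k = d - 1
          · rw [h3]; exact (T (qd d hd)).2.2
          · exact coeff_eq_zero_of_natDegree_lt (lt_of_le_of_lt (T (qd d hd)).2.1 (by omega))
    have hpos : ∀ k, k ≤ M → (0 : ℝ) ≤ (((d - k : ℕ) : ℝ) - 1) * (d.choose (d - k) : ℝ) := by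
      intro k hk
      have : (2 : ℝ) ≤ ((d - k : ℕ) : ℝ) := by exact_mod_cast (by omega : 2 ≤ d - k)
      exact mul_nonneg (by linarith) (Nat.cast_nonneg _)
    have hs : ((-1 : ℝ) ^ (d - M)) ≠ 0 := pow_ne_zero _ (by norm_num)
    rcases hε with rfl | rfl
    · left
      -- no negative roots
      have h4 := roots_nonpos (C (-(lam M * (-1) ^ (d - M) * (-1) ^ M)) *
        (T (qd d hd) : ℝ[X]).comp (-X)) (by
        intro k
        rw [coeff_C_mul, comp_neg_coeff]
        rcases Nat.lt_or_ge M k with hk | hk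
        · rw [hcoef0 k hk]; simp
        · have h5 := h2 (M - k) (by omega)
          rw [one_pow, one_mul] at h5
          have e3 : -(lam M * (-1) ^ (d - M) * (-1) ^ M) * ((T (qd d hd) : ℝ[X]).coeff k *
              (-1) ^ k) = -(lam M * (T (qd d hd) : ℝ[X]).coeff k * (-1) ^ (d - M)) *
                ((-1) ^ M * (-1) ^ k) := by ring
          rw [e3, hcoef k hk]
          have e4 : ((-1 : ℝ) ^ (M - k)) * ((-1) ^ M * (-1) ^ k) = 1 := by
            rw [← pow_add, ← pow_add, show M - k + (M + k) = 2 * M by omega, pow_mul]; simp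
          have e5 : - (-((lam (M - (M - k)) * lam M) * (((d - k : ℕ) : ℝ) - 1) *
              (d.choose (d - k) : ℝ)) * (-1) ^ (M - k)) * ((-1) ^ M * (-1) ^ k) =
              (lam (M - (M - k)) * lam M) * ((((d - k : ℕ) : ℝ) - 1) *
              (d.choose (d - k) : ℝ)) * (((-1 : ℝ) ^ (M - k)) * ((-1) ^ M * (-1) ^ k)) := by ring
          rw [e5, e4, mul_one]
          exact mul_nonneg h5 (hpos k hk))
      rw [roots_C_mul _ (neg_ne_zero.mpr (mul_ne_zero (mul_ne_zero hM0 hs)
        (pow_ne_zero _ (by norm_num)))), roots_comp_neg_X] at h4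
      intro x hx
      have := h4 (-x) (Multiset.mem_map_of_mem _ hx)
      linarith
    · right
      have h4 := roots_nonpos (C (-(lam M * (-1) ^ (d - M))) * (T (qd d hd) : ℝ[X])) (by
        intro k
        rw [coeff_C_mul]
        rcases Nat.lt_or_ge M k with hk | hk
        · rw [hcoef0 k hk]; simp
        · have h5 := h2 (M - k) (by omega)
          have e3 : -(lam M * (-1) ^ (d - M)) * (T (qd d hd) : ℝ[X]).coeff k =
              -(lam M * (T (qd d hd) : ℝ[X]).coeff k * (-1) ^ (d - M)) := by ring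
          rw [e3, hcoef k hk]
          have e5 : - (-((lam (M - (M - k)) * lam M) * (((d - k : ℕ) : ℝ) - 1) *
              (d.choose (d - k) : ℝ)) * (-1) ^ (M - k)) =
              ((-1) ^ (M - k) * (lam (M - (M - k)) * lam M)) * ((((d - k : ℕ) : ℝ) - 1) *
              (d.choose (d - k) : ℝ)) := by ring
          rw [e5]
          exact mul_nonneg h5 (hpos k hk))
      rw [roots_C_mul _ (neg_ne_zero.mpr (mul_ne_zero hM0 hs))] at h4
      exact h4

end only_if

/-- reality of the zeros of the reflected polynomial, together with their sign -/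
lemma reflect_roots_nonneg (N : ℕ) (p : ℝ[X]) (hd : p.natDegree ≤ N) (h0 : p ≠ 0)
    (hs : ∀ x ∈ p.roots, 0 ≤ x) : ∀ ρ ∈ (reflect N p).roots, 0 ≤ ρ := by
  intro ρ hρ
  by_contra hcon
  push Not at hcon
  have hne : ρ ≠ 0 := hcon.ne
  have hr0 : reflect N p ≠ 0 := by
    intro h
    rw [h] at hρ
    simp at hρ
  rw [mem_roots hr0, IsRoot.def] at hρ
  have hinv : Invertible (ρ⁻¹) := invertibleOfNonzero (inv_ne_zero hne)
  have h1 := eval₂_reflect_mul_pow (RingHom.id ℝ) ρ⁻¹ N p hd
  rw [invOf_eq_inv, inv_inv] at h1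
  rw [← eval] at h1
  rw [← eval] at h1
  rw [hρ, zero_mul] at h1
  have h2 := hs ρ⁻¹ (by rw [mem_roots h0, IsRoot.def]; exact h1.symm)
  have h3 : ρ⁻¹ < 0 := inv_lt_zero.mpr hcon
  linarith

lemma comp_flip (N : ℕ) (W r : ℝ[X]) : comp N W r = comp N (W.comp (-X)) (r.comp (-X)) := by
  ext k
  rw [comp_coeff, comp_coeff, comp_neg_coeff, comp_neg_coeff]
  split_ifs
  · have : ((-1 : ℝ) ^ k) * (-1) ^ k = 1 := by rw [← mul_pow]; simp
    have e : W.coeff k * (-1) ^ k * (r.coeff k * (-1) ^ k) = W.coeff k * r.coeff k *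
        (((-1 : ℝ) ^ k) * (-1) ^ k) := by ring
    rw [e, this, mul_one]
  · rfl

/-- the degenerate sufficiency -/
lemma low_suff {d : ℕ} (hd : 2 ≤ d) (T : ZeroSum d →ₗ[ℝ] ZeroSum d) (lam : ℕ → ℝ)
    (hc : ∀ (g : ZeroSum d) (k : ℕ), (T g : ℝ[X]).coeff k = lam k * (g : ℝ[X]).coeff k)
    (h0 : lam d = 0) (hreal : (T (qd d hd) : ℝ[X]).Splits)
    (hsign : AllSameSign (T (qd d hd) : ℝ[X])) (g : ZeroSum d) (hg : (g : ℝ[X]).Splits) :
    (T g : ℝ[X]).Splits := by
  obtain ⟨N, rfl⟩ : ∃ N, d = N + 2 := ⟨d - 2, by omega⟩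
  set p : ℝ[X] := (T (qd (N + 2) hd) : ℝ[X]) with hp
  have hcoefd : p.coeff (N + 2) = 0 := by rw [hp, hc, h0, zero_mul]
  have hcoefd1 : p.coeff (N + 1) = 0 := (T (qd (N + 2) hd)).2.2
  have hpd : p.natDegree ≤ N := by
    rw [natDegree_le_iff_coeff_eq_zero]
    intro k hk
    by_cases h1 : k = N + 1
    · rw [h1]; exact hcoefd1
    · by_cases h2 : k = N + 2
      · rw [h2]; exact hcoefd
      · exact coeff_eq_zero_of_natDegree_lt (lt_of_le_of_lt (T (qd (N + 2) hd)).2.1 (by omega))
  set r : ℝ[X] := reflect N p with hr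
  have hrc : ∀ k, k ≤ N → r.coeff k = p.coeff (N - k) := by
    intro k hk
    rw [hr, coeff_reflect, revAt_le hk]
  have hrd : r.natDegree ≤ N := by
    rw [natDegree_le_iff_coeff_eq_zero]
    intro k hk
    rw [hr, coeff_reflect, revAt_eq_self_of_lt hk]
    exact coeff_eq_zero_of_natDegree_lt (by omega)
  set G : ℝ[X] := reflect (N + 2) (g : ℝ[X]) with hG
  have hTf : reflect (N + 2) (T g : ℝ[X]) = fP (N + 2) G (X ^ 2 * r) := by
    ext k
    rw [fP_coeff, coeff_reflect]
    by_cases hk : k ≤ N + 2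
    · rw [if_pos hk, revAt_le hk, hc, hG, coeff_reflect, revAt_le hk]
      rcases Nat.lt_or_ge k 2 with hk2 | hk2
      · have e1 : (X ^ 2 * r).coeff k = 0 := by
          rw [mul_comm, coeff_mul_X_pow', if_neg (by omega)]
        rw [e1]
        rcases Nat.eq_zero_or_pos k with h1 | h1
        · rw [h1, Nat.sub_zero, h0]; simp
        · obtain rfl : k = 1 := by omega
          rw [g.2.2]; simp
      · obtain ⟨j, rfl⟩ : ∃ j, k = j + 2 := ⟨k - 2, by omega⟩
        have e1 : (X ^ 2 * r).coeff (j + 2) = p.coeff (N + 2 - (j + 2)) := by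
          rw [mul_comm, coeff_mul_X_pow', if_pos (by omega), Nat.add_sub_cancel,
            hrc j (by omega)]
          congr 1
          omega
        rw [e1, hp, hc, qd_coeff (N + 2) hd (j + 2) hk]
        unfold kap
        have c0 : ((N + 2).choose (j + 2) : ℝ) ≠ 0 := by exact_mod_cast (Nat.choose_pos hk).ne'
        have c1 : (1 - ((j + 2 : ℕ) : ℝ)) ≠ 0 := by
          push_cast
          have : (0 : ℝ) ≤ j := Nat.cast_nonneg j
          intro h
          linarith
        have c2 : ((-1 : ℝ) ^ (j + 2)) * (-1) ^ (j + 2) = 1 := by rw [← mul_pow]; simp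
        field_simp
        linear_combination (-(lam (N + 2 - (j + 2)) * (g : ℝ[X]).coeff (N + 2 - (j + 2)))) * c2
    · rw [if_neg hk, revAt_eq_self_of_lt (by omega)]
      exact coeff_eq_zero_of_natDegree_lt (lt_of_le_of_lt (T g).2.1 (by omega))
  have hW1 : G.coeff 1 = 0 := by
    rw [hG, coeff_reflect, revAt_le (by omega)]; exact g.2.2
  have hGs : G.Splits := splits_reflect (N + 2) _ hg g.2.1
  have hGd : G.natDegree ≤ N + 2 := by
    rw [natDegree_le_iff_coeff_eq_zero]
    intro k hk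
    rw [hG, coeff_reflect, revAt_eq_self_of_lt hk]
    exact coeff_eq_zero_of_natDegree_lt (lt_of_le_of_lt g.2.1 (by omega))
  have hWs := dX_splits G hW1 hGs
  have hWd := dX_natDegree G N hGd
  have hrs : r.Splits := splits_reflect N p hreal hpd
  have key : (comp N (dX G) r).Splits := by
    by_cases hp0 : p = 0
    · have : r = 0 := by rw [hr, hp0, reflect_zero]
      have h3 : comp N (dX G) r = 0 := by
        ext k; rw [comp_coeff, this]; simp
      rw [h3]; exact Splits.zero
    rcases hsign with hs | hs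
    · exact comp_splits' N _ _ hWs hWd hrs (reflect_roots_nonneg N p hpd hp0 hs) hrd
    · rw [comp_flip]
      apply comp_splits' N _ _ hWs.comp_neg_X
      · rw [natDegree_comp]; simpa using hWd
      · exact hrs.comp_neg_X
      · intro ρ hρ
        have e1 : r.comp (-X) = C ((-1) ^ N) * reflect N (p.comp (-X)) := by
          ext k
          rw [comp_neg_coeff, coeff_C_mul, coeff_reflect N (p.comp (-X))]
          by_cases hk : k ≤ N
          · rw [revAt_le hk, comp_neg_coeff, hrc k hk]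
            have : ((-1 : ℝ) ^ N) * (-1) ^ (N - k) = (-1) ^ k := by
              rw [← pow_add, show N + (N - k) = 2 * (N - k) + k by omega, pow_add, pow_mul]
              simp
            rw [← this]; ring
          · rw [revAt_eq_self_of_lt (by omega), comp_neg_coeff,
              coeff_eq_zero_of_natDegree_lt (by omega : r.natDegree < k),
              coeff_eq_zero_of_natDegree_lt (by omega : p.natDegree < k)]
            ring
        rw [e1, roots_C_mul _ (pow_ne_zero _ (by norm_num))] at hρ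
        refine reflect_roots_nonneg N (p.comp (-X)) (by rw [natDegree_comp]; simpa using hpd)
          (by rwa [Ne, comp_neg_X_eq_zero_iff]) ?_ ρ hρ
        intro x hx
        rw [roots_comp_neg_X, Multiset.mem_map] at hx
        obtain ⟨y, hy, rfl⟩ := hx
        have := hs y hy
        linarith
      · rw [natDegree_comp]; simpa using hrd
  have hfs : (reflect (N + 2) (T g : ℝ[X])).Splits := by
    rw [hTf, fP_X2]
    exact ((Splits.X_pow 2).mul key).C_mul _
  have h2 : (T g : ℝ[X]) = reflect (N + 2) (reflect (N + 2) (T g : ℝ[X])) := by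
    ext k; rw [coeff_reflect, coeff_reflect, revAt_invol]
  rw [h2]
  apply splits_reflect (N + 2) _ hfs
  rw [natDegree_le_iff_coeff_eq_zero]
  intro k hk
  rw [coeff_reflect, revAt_eq_self_of_lt hk]
  exact coeff_eq_zero_of_natDegree_lt (lt_of_le_of_lt (T g).2.1 (by omega))

/-- **Main theorem.** Let `d ≥ 2` and let `T` be a diagonal map of `V_d` with multipliers
`lam k`. If `lam d ≠ 0` (so that `T q_d` has exactly `d` zeros), then `T` preserves
real-rootedness iff `T q_d` is real-rooted and `d - 1` of its zeros have the same sign. If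
`lam d = 0` (so that `T q_d` has degree `≤ d - 2` or vanishes), then `T` preserves
real-rootedness iff `T q_d` is real-rooted and all its zeros have the same sign. -/
theorem result : ∀ (d : ℕ) (hd : 2 ≤ d) (T : ZeroSum d →ₗ[ℝ] ZeroSum d) (lam : ℕ → ℝ),
    DiagonalWith T lam →
    (lam d ≠ 0 → (IsPreserver T ↔
      (OnlyRealRoots (T (qd d hd) : ℝ[X]) ∧ SameSign d (T (qd d hd) : ℝ[X])))) ∧
    (lam d = 0 → (IsPreserver T ↔
      (OnlyRealRoots (T (qd d hd) : ℝ[X]) ∧ AllSameSign (T (qd d hd) : ℝ[X])))) := by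
  intro d hd T lam hdiag
  have hc := T_coeffs hd T lam hdiag
  have hpr : IsPreserver T → ∀ g : ZeroSum d, (g : ℝ[X]).Splits → (T g : ℝ[X]).Splits := by
    intro h g hg
    exact (splits_iff_only _).mp (h g ((splits_iff_only _).mpr hg))
  constructor
  · intro h0
    constructor
    · intro hpres
      exact ⟨(splits_iff_only _).mpr (hpr hpres _ (qd_splits d hd)),
        sameSign_top hd T lam hc (hpr hpres) h0⟩
    · rintro ⟨h1, h2⟩
      refine Pool.Agent.Results.MP_0cd67c_ag.ZeroSumPreservers.result d d (by omega) (by omega) T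
        ⟨fun i => lam (d - i), ?_⟩ h1 h2
      intro i hi hi1 m hm
      rw [if_pos hi]
      exact hdiag (d - i) (by omega) (by omega) m hm
  · intro h0
    constructor
    · intro hpres
      exact ⟨(splits_iff_only _).mpr (hpr hpres _ (qd_splits d hd)),
        allSameSign_low hd T lam hc (hpr hpres) h0⟩
    · rintro ⟨h1, h2⟩ g hg
      rw [splits_iff_only] at h1 hg ⊢
      exact low_suff hd T lam hc h0 h1 h2 g hg

end Pool.Agent.Results.MP_31565c_an.Full
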